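import Pool.Agent.H.MP_ba14eb_lc.Defs

namespace Pool.Agent.H.MP_ba14eb_lc

structure Nest {X : Type} (E : ℕ → X → X → Prop) : Prop where
  refl : ∀ j x, E j x x
  symm : ∀ {j x y}, E j x y → E j y x
  trans : ∀ {j x y z}, E j x y → E j y z → E j x z
  mono1 : ∀ {j x y}, E j x y → E (j + 1) x y
  zero : ∀ {x y}, E 0 x y → x = y

theorem Nest.mono {X : Type} {E : ℕ → X → X → Prop} (h : Nest E) {i j : ℕ} (hij : i ≤ j)
    {x y : X} (hxy : E i x y) : E j x y := by
  induction hij with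
  | refl => exact hxy
  | step _ ih => exact h.mono1 ih

def Ty (n : ℕ) : ℕ → Type
  | 0 => Unit
  | j + 1 => Set (Ty n j × Fin (n + 1))

instance finTy (n : ℕ) : ∀ j, Finite (Ty n j)
  | 0 => inferInstanceAs (Finite Unit)
  | j + 1 => by
    have := finTy n j
    exact inferInstanceAs (Finite (Set (Ty n j × Fin (n + 1))))

def Wit {X T : Type} (E : ℕ → X → X → Prop) (t : X → T) (j : ℕ) (x : X) (σ : T) (r : ℕ) : Prop :=
  ∃ z : Fin r → X, (∀ a, E (j + 1) x (z a) ∧ t (z a) = σ) ∧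
    ∀ a b, a ≠ b → ¬ E j (z a) (z b)

def tp {X : Type} (E : ℕ → X → X → Prop) (n : ℕ) : (j : ℕ) → X → Ty n j
  | 0, _ => ()
  | j + 1, x => ({q | Wit E (tp E n j) j x q.1 q.2.val} : Set (Ty n j × Fin (n + 1)))

theorem tp_succ_eq {X Y : Type} {E : ℕ → X → X → Prop} {E' : ℕ → Y → Y → Prop} {n j : ℕ}
    {x : X} {y : Y} :
    tp E n (j + 1) x = tp E' n (j + 1) y ↔
      ∀ σ r, r ≤ n → (Wit E (tp E n j) j x σ r ↔ Wit E' (tp E' n j) j y σ r) := by
  constructor
  · intro h σ r hr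
    have h' : ({q | Wit E (tp E n j) j x q.1 q.2.val} : Set (Ty n j × Fin (n + 1))) =
      ({q | Wit E' (tp E' n j) j y q.1 q.2.val} : Set (Ty n j × Fin (n + 1))) := h
    exact Set.ext_iff.1 h' (σ, ⟨r, by omega⟩)
  · intro h
    show ({q | Wit E (tp E n j) j x q.1 q.2.val} : Set (Ty n j × Fin (n + 1))) =
      ({q | Wit E' (tp E' n j) j y q.1 q.2.val} : Set (Ty n j × Fin (n + 1)))
    ext q
    exact h q.1 q.2.val (by have := q.2.2; omega)

theorem Wit.anti {X T : Type} {E : ℕ → X → X → Prop} {t : X → T} {j : ℕ} {x : X} {σ : T}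
    {r s : ℕ} (h : Wit E t j x σ r) (hs : s ≤ r) : Wit E t j x σ s := by
  obtain ⟨z, h1, h2⟩ := h
  refine ⟨fun a => z (Fin.castLE hs a), fun a => h1 _, fun a b hab => h2 _ _ ?_⟩
  intro h
  exact hab (Fin.castLE_injective hs h)

theorem tp_congr {X : Type} {E : ℕ → X → X → Prop} (h : Nest E) (n : ℕ) {j : ℕ} {x y : X}
    (hxy : E j x y) : tp E n j x = tp E n j y := by
  cases j with
  | zero => rfl
  | succ j =>
    rw [tp_succ_eq]
    intro σ r _
    constructor
    · rintro ⟨z, h1, h2⟩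
      exact ⟨z, fun a => ⟨h.trans (h.symm hxy) (h1 a).1, (h1 a).2⟩, h2⟩
    · rintro ⟨z, h1, h2⟩
      exact ⟨z, fun a => ⟨h.trans hxy (h1 a).1, (h1 a).2⟩, h2⟩

theorem tp_transfer {X Y : Type} {E : ℕ → X → X → Prop} {E' : ℕ → Y → Y → Prop} (n : ℕ)
    (f : X → Y) (hf : ∀ j x y, E' j (f x) (f y) ↔ E j x y)
    (hc : ∀ j x z, E' j (f x) z → ∃ y, z = f y) :
    ∀ j x, tp E' n j (f x) = tp E n j x := by
  intro j
  induction j with
  | zero => intro x; rfl
  | succ j ih =>
    intro x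
    rw [tp_succ_eq]
    intro σ r _
    constructor
    · rintro ⟨z, h1, h2⟩
      choose w hw using fun a => hc _ _ _ (h1 a).1
      refine ⟨w, fun a => ⟨?_, ?_⟩, fun a b hab h => h2 a b hab ?_⟩
      · rw [← hf, ← hw]; exact (h1 a).1
      · rw [← ih, ← hw]; exact (h1 a).2
      · rw [hw, hw, hf]; exact h
    · rintro ⟨z, h1, h2⟩
      refine ⟨fun a => f (z a), fun a => ⟨?_, ?_⟩, fun a b hab h => h2 a b hab ?_⟩
      · rw [hf]; exact (h1 a).1
      · rw [ih]; exact (h1 a).2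
      · rw [← hf]; exact h

/-- one step down in the extension argument -/
theorem step_down {X Y : Type} {E : ℕ → X → X → Prop} {E' : ℕ → Y → Y → Prop}
    (hE : Nest E) {n k j : ℕ} (hk : k < n) (xs : Fin k → X) (ys : Fin k → Y)
    (x : X) (y : Y) (h0 : ∀ a b, E j (xs a) (xs b) ↔ E' j (ys a) (ys b))
    (h1 : ∀ a, E (j + 1) (xs a) x ↔ E' (j + 1) (ys a) y)
    (hE' : Nest E')
    (h2 : ∀ a, tp E n j (xs a) = tp E' n j (ys a))
    (h3 : tp E n (j + 1) x = tp E' n (j + 1) y)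
    (h4 : ∀ a, ¬ E j (xs a) x) :
    ∃ y', E' (j + 1) y y' ∧ tp E' n j y' = tp E n j x ∧ ∀ a, ¬ E' j (ys a) y' := by
  by_contra hcon
  push Not at hcon
  have key : ∀ r, r ≤ n → ∃ c : Fin r → Fin k,
      (∀ t, E (j + 1) x (xs (c t)) ∧ tp E n j (xs (c t)) = tp E n j x) ∧
      ∀ s t, s ≠ t → ¬ E j (xs (c s)) (xs (c t)) := by
    intro r
    induction r with
    | zero => intro _; exact ⟨Fin.elim0, fun t => t.elim0, fun s => s.elim0⟩
    | succ r ih =>
      intro hr
      obtain ⟨c, hc1, hc2⟩ := ih (by omega)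
      have hw : Wit E (tp E n j) j x (tp E n j x) (r + 1) := by
        refine ⟨Fin.cons x (fun t => xs (c t)), fun a => ?_, fun a b hab => ?_⟩
        · refine Fin.cases ?_ (fun t => ?_) a
          · exact ⟨hE.refl _ _, rfl⟩
          · exact hc1 t
        · revert hab
          refine Fin.cases ?_ (fun s => ?_) a
          · refine Fin.cases ?_ (fun t => ?_) b
            · intro h; exact absurd rfl h
            · intro _ h; exact h4 _ (hE.symm h)
          · refine Fin.cases ?_ (fun t => ?_) b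
            · intro _ h; exact h4 _ h
            · intro hst h
              exact hc2 s t (fun e => hst (by rw [e])) h
      obtain ⟨z, hz1, hz2⟩ := ((tp_succ_eq.1 h3) _ _ hr).1 hw
      choose d hd using fun t => hcon (z t) (hz1 t).1 (hz1 t).2
      refine ⟨d, fun t => ⟨?_, ?_⟩, fun s t hst h => hz2 s t hst ?_⟩
      · exact hE.symm ((h1 _).2 (hE'.trans (hE'.mono1 (hd t)) (hE'.symm (hz1 t).1)))
      · rw [h2, tp_congr hE' n (hd t)]; exact (hz1 t).2
      · exact hE'.trans (hE'.symm (hd s)) (hE'.trans ((h0 _ _).1 h) (hd t))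
  obtain ⟨c, -, hc2⟩ := key n le_rfl
  have hinj : Function.Injective c := by
    intro s t hst
    by_contra hne
    exact hc2 s t hne (by rw [hst]; exact hE.refl _ _)
  have := Fintype.card_le_of_injective c hinj
  simp at this
  omega

/-- the full descent -/
theorem descend {X Y : Type} {E : ℕ → X → X → Prop} {E' : ℕ → Y → Y → Prop}
    (hE : Nest E) (hE' : Nest E') {n k m : ℕ} (hk : k < n) (xs : Fin k → X) (ys : Fin k → Y)
    (x : X) (h0 : ∀ j ≤ m, ∀ a b, E j (xs a) (xs b) ↔ E' j (ys a) (ys b))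
    (h2 : ∀ j ≤ m, ∀ a, tp E n j (xs a) = tp E' n j (ys a))
    (y0 : Y) (hy0 : tp E' n m y0 = tp E n m x) (hy1 : ∀ a, E m (xs a) x ↔ E' m (ys a) y0) :
    ∃ y, E' m y0 y ∧ ∀ i ≤ m, tp E' n i y = tp E n i x ∧ ∀ a, (E i (xs a) x ↔ E' i (ys a) y) := by
  have key : ∀ d, d ≤ m → ∃ y, E' m y0 y ∧ ∀ i, m - d ≤ i → i ≤ m →
      tp E' n i y = tp E n i x ∧ ∀ a, (E i (xs a) x ↔ E' i (ys a) y) := by
    intro d
    induction d with
    | zero =>
      intro _
      refine ⟨y0, hE'.refl _ _, fun i h1 h2 => ?_⟩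
      obtain rfl : i = m := by omega
      exact ⟨hy0, hy1⟩
    | succ d ih =>
      intro hd
      obtain ⟨y, hy, hy'⟩ := ih (by omega)
      obtain ⟨j, hj⟩ : ∃ j, j = m - (d + 1) := ⟨_, rfl⟩
      have hj1 : j + 1 = m - d := by omega
      have hjm : j + 1 ≤ m := by omega
      by_cases hx : ∃ a, E j (xs a) x
      · obtain ⟨a, ha⟩ := hx
        refine ⟨ys a, hE'.symm ((hy1 a).1 (hE.mono (by omega) ha)), fun i h1 h2' => ?_⟩
        have hai : E i (xs a) x := hE.mono (by omega) ha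
        refine ⟨by rw [← h2 i h2', tp_congr hE n hai], fun b => ?_⟩
        rw [← h0 i h2']
        exact ⟨fun h => hE.trans h (hE.symm hai), fun h => hE.trans h hai⟩
      · push Not at hx
        obtain ⟨y', g1, g2, g3⟩ := step_down hE hk xs ys x y (h0 j (by omega))
          (hy' (j + 1) (by omega) hjm).2 hE' (h2 j (by omega))
          (hy' (j + 1) (by omega) hjm).1.symm hx
        refine ⟨y', hE'.trans hy (hE'.mono hjm g1), fun i h1 h2' => ?_⟩
        rcases Nat.eq_or_lt_of_le (show j ≤ i by omega) with rfl | hlt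
        · exact ⟨g2, fun a => ⟨fun h => absurd h (hx a), fun h => absurd h (g3 a)⟩⟩
        · have gi : E' i y y' := hE'.mono (by omega) g1
          obtain ⟨k1, k2⟩ := hy' i (by omega) h2'
          refine ⟨by rw [← tp_congr hE' n gi, k1], fun a => ?_⟩
          rw [k2]
          exact ⟨fun h => hE'.trans h gi, fun h => hE'.trans h (hE'.symm gi)⟩
  obtain ⟨y, hy, hy'⟩ := key m le_rfl
  exact ⟨y, hy, fun i hi => hy' i (by omega) hi⟩

end Pool.Agent.H.MP_ba14eb_lc
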