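import Pool.Agent.H.MP_ba14eb_lc.A

namespace Pool.Agent.H.MP_ba14eb_lc

def e (j : ℕ) (l l' : List ℕ) : Prop := l.take (l.length - j) = l'.take (l'.length - j)

theorem e_mono1 {j : ℕ} {l l' : List ℕ} (h : e j l l') : e (j + 1) l l' := by
  unfold e at *
  have hl := congrArg List.length h
  simp only [List.length_take] at hl
  have h1 : l.take (l.length - (j + 1)) = (l.take (l.length - j)).take (l.length - j - 1) := by
    rw [List.take_take]; congr 1; omega
  have h2 : l'.take (l'.length - (j + 1)) =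
      (l'.take (l'.length - j)).take (l'.length - j - 1) := by
    rw [List.take_take]; congr 1; omega
  rw [h1, h2, h]
  congr 1; omega

theorem nest_e : Nest e where
  refl := fun _ _ => rfl
  symm := fun h => h.symm
  trans := fun h1 h2 => h1.trans h2
  mono1 := e_mono1
  zero := fun h => by simpa [e] using h

theorem e_app {j : ℕ} {p l y : List ℕ} (hl : l.length = j) (hy : y.length = p.length + j) :
    e j (p ++ l) y ↔ ∃ l', l'.length = j ∧ y = p ++ l' := by
  unfold e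
  have h1 : (p ++ l).take ((p ++ l).length - j) = p := by
    simp [hl]
  rw [h1, hy, Nat.add_sub_cancel]
  constructor
  · intro h
    refine ⟨y.drop p.length, by simp [hy], ?_⟩
    conv_lhs => rw [← List.take_append_drop p.length y, ← h]
  · rintro ⟨l', -, rfl⟩; simp

theorem e_len {j : ℕ} {p l y : List ℕ} (hl : l.length = j) (hp : p ≠ []) (h : e j (p ++ l) y) :
    y.length = p.length + j := by
  unfold e at h
  have h1 := congrArg List.length h
  simp only [List.length_take, List.length_append, hl] at h1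
  have : 0 < p.length := List.length_pos_iff.2 hp
  omega

abbrev Cp : Type := Finset (List ℕ) × ℕ
abbrev Ix : Type := Cp × List ℕ
abbrev M0 : Type := {c : Ix // c.2 ∈ c.1.1}

def E0 (j : ℕ) (c d : M0) : Prop := c.1.1 = d.1.1 ∧ e j c.1.2 d.1.2

theorem nest_E0 : Nest E0 where
  refl := fun _ _ => ⟨rfl, rfl⟩
  symm := fun h => ⟨h.1.symm, h.2.symm⟩
  trans := fun h1 h2 => ⟨h1.1.trans h2.1, h1.2.trans h2.2⟩
  mono1 := fun h => ⟨h.1, e_mono1 h.2⟩
  zero := fun h => Subtype.ext (Prod.ext h.1 (nest_e.zero h.2))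

def Rz (n j : ℕ) (S : Finset (List ℕ)) (σ : Ty n j) : Prop :=
  S.Nonempty ∧ (∀ l ∈ S, l.length = j) ∧
  ∀ (T : Finset (List ℕ)) (k : ℕ) (p : List ℕ), (∀ y ∈ T, y.length = p.length + j) →
    (∀ l, p ++ l ∈ T ↔ l ∈ S) → ∀ l (h : p ++ l ∈ T), tp E0 n j ⟨((T, k), p ++ l), h⟩ = σ

theorem realize {X : Type} {E : ℕ → X → X → Prop} (hE : Nest E) {n : ℕ} (hn : 0 < n) :
    ∀ j x, ∃ S, Rz n j S (tp E n j x) := by
  classical
  intro j
  induction j with
  | zero =>
    intro x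
    exact ⟨{[]}, by simp, by simp, fun _ _ _ _ _ _ _ => rfl⟩
  | succ j ih =>
    intro x
    have ih' : ∀ σ : Ty n j, ∃ S, (∃ y, tp E n j y = σ) → Rz n j S σ := by
      intro σ
      by_cases h : ∃ y, tp E n j y = σ
      · obtain ⟨y, rfl⟩ := h
        obtain ⟨S, hS⟩ := ih y
        exact ⟨S, fun _ => hS⟩
      · exact ⟨∅, fun h' => absurd h' h⟩
    choose Sg hSg using ih'
    obtain ⟨code, hcode⟩ := exists_injective_nat (Ty n j × Fin n)
    have : Fintype (Ty n j × Fin n) := Fintype.ofFinite _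
    obtain ⟨Q, hQ⟩ : ∃ Q : Finset (Ty n j × Fin n),
        ∀ q, q ∈ Q ↔ Wit E (tp E n j) j x q.1 (q.2.val + 1) :=
      ⟨Finset.univ.filter (fun q => Wit E (tp E n j) j x q.1 (q.2.val + 1)), by simp⟩
    have hQR : ∀ q ∈ Q, Rz n j (Sg q.1) q.1 := by
      intro q hq
      obtain ⟨z, hz, -⟩ := (hQ q).1 hq
      exact hSg _ ⟨z 0, (hz 0).2⟩
    obtain ⟨S, hS⟩ : ∃ S : Finset (List ℕ), ∀ l, l ∈ S ↔ ∃ q ∈ Q, ∃ l' ∈ Sg q.1, code q :: l' = l :=
      ⟨Q.biUnion (fun q => (Sg q.1).image (fun l' => code q :: l')), by simp⟩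
    have hlen : ∀ l ∈ S, l.length = j + 1 := by
      intro l hl
      obtain ⟨q, hq, l', hl', rfl⟩ := (hS l).1 hl
      simp [(hQR q hq).2.1 l' hl']
    refine ⟨S, ?_, hlen, ?_⟩
    · have hq : (tp E n j x, (⟨0, hn⟩ : Fin n)) ∈ Q := by
        rw [hQ]
        exact ⟨fun _ => x, fun _ => ⟨hE.refl _ _, rfl⟩, fun a b hab => absurd (Subsingleton.elim (α := Fin 1) a b) hab⟩
      obtain ⟨l', hl'⟩ := (hQR _ hq).1
      exact ⟨_, (hS _).2 ⟨_, hq, l', hl', rfl⟩⟩
    intro T k p hT hTS l hl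
    have hl1 : l.length = j + 1 := hlen l ((hTS l).1 hl)
    -- types of the elements of the class
    have hsub : ∀ q ∈ Q, ∀ l' (h : p ++ [code q] ++ l' ∈ T),
        tp E0 n j ⟨((T, k), p ++ [code q] ++ l'), h⟩ = q.1 := by
      intro q hq l' h
      refine (hQR q hq).2.2 T k (p ++ [code q]) (fun y hy => by simp [hT y hy]; omega) ?_ l' h
      intro l''
      rw [List.append_assoc, hTS, hS]
      constructor
      · rintro ⟨q', hq', l3, hl3, h3⟩
        simp only [List.singleton_append, List.cons.injEq] at h3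
        obtain rfl := hcode h3.1
        rw [← h3.2]; exact hl3
      · intro h3
        exact ⟨q, hq, l'', h3, rfl⟩
    have hcls : ∀ z : M0, E0 (j + 1) ⟨((T, k), p ++ l), hl⟩ z →
        ∃ q ∈ Q, ∃ l' ∈ Sg q.1, ∃ h : p ++ [code q] ++ l' ∈ T,
          z = ⟨((T, k), p ++ [code q] ++ l'), h⟩ := by
      rintro ⟨⟨c, y⟩, hy⟩ ⟨h1, h2⟩
      simp only at h1 h2 hy
      subst h1
      obtain ⟨l', -, rfl⟩ := (e_app hl1 (hT y hy)).1 h2
      obtain ⟨q, hq, l3, hl3, rfl⟩ := (hS _).1 ((hTS _).1 hy)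
      exact ⟨q, hq, l3, hl3, by simpa using hy, by simp⟩
    have hne : ∀ q ∈ Q, ∀ q' ∈ Q, ∀ l1 ∈ Sg q.1, ∀ l2 ∈ Sg q'.1,
        (e j (p ++ [code q] ++ l1) (p ++ [code q'] ++ l2) ↔ q = q') := by
      intro q hq q' hq' l1 h1 l2 h2
      rw [e_app ((hQR q hq).2.1 l1 h1) (by simp [(hQR q' hq').2.1 l2 h2]; omega)]
      constructor
      · rintro ⟨l3, -, h3⟩
        simp only [List.append_assoc, List.singleton_append, List.append_cancel_left_eq,
          List.cons.injEq] at h3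
        exact (hcode h3.1).symm
      · rintro rfl
        exact ⟨l2, (hQR q hq).2.1 l2 h2, rfl⟩
    rw [tp_succ_eq]
    intro σ r hr
    constructor
    · rintro ⟨z, hz1, hz2⟩
      choose q hq l' hl' hm hz using fun a => hcls (z a) (hz1 a).1
      have hq1 : ∀ a, (q a).1 = σ := by
        intro a
        rw [← (hz1 a).2, hz a, hsub _ (hq a)]
      have hinj : Function.Injective (fun a => (q a).2) := by
        intro a b hab
        by_contra hne'
        apply hz2 a b hne'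
        rw [hz a, hz b]
        exact ⟨rfl, (hne _ (hq a) _ (hq b) _ (hl' a) _ (hl' b)).2
          (Prod.ext ((hq1 a).trans (hq1 b).symm) hab)⟩
      rcases Nat.eq_zero_or_pos r with rfl | hr0
      · exact ⟨Fin.elim0, fun a => a.elim0, fun a => a.elim0⟩
      have hbig : ∃ a, r ≤ (q a).2.val + 1 := by
        by_contra hcon
        push Not at hcon
        have := Fintype.card_le_of_injective
          (fun a : Fin r => (⟨(q a).2.val, by have := hcon a; omega⟩ : Fin (r - 1)))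
          (fun a b hab => hinj (Fin.ext (by simpa using hab)))
        simp at this
        omega
      obtain ⟨a, ha⟩ := hbig
      have := (hQ _).1 (hq a)
      rw [hq1 a] at this
      exact this.anti ha
    · intro hw
      have hq : ∀ a : Fin r, (σ, (⟨a.val, by have := a.2; omega⟩ : Fin n)) ∈ Q := by
        intro a
        rw [hQ]
        exact hw.anti (by have := a.2; simp only; omega)
      choose l' hl' using fun a => (hQR _ (hq a)).1
      have hm : ∀ a : Fin r,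
          p ++ [code (σ, (⟨a.val, by have := a.2; omega⟩ : Fin n))] ++ l' a ∈ T := by
        intro a
        rw [List.append_assoc, hTS, hS]
        exact ⟨_, hq a, l' a, hl' a, rfl⟩
      refine ⟨fun a => ⟨((T, k), _), hm a⟩, fun a => ⟨⟨rfl, ?_⟩, hsub _ (hq a) _ _⟩,
        fun a b hab h => hab ?_⟩
      · refine (e_app hl1 (hT _ (hm a))).2 ⟨_, ?_, List.append_assoc _ _ _⟩
        simp [(hQR _ (hq a)).2.1 _ (hl' a)]
      · have := (hne _ (hq a) _ (hq b) _ (hl' a) _ (hl' b)).1 h.2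
        simp only [Prod.mk.injEq, true_and, Fin.mk.injEq] at this
        exact Fin.ext this

structure Nice {N : Type} (E : ℕ → N → N → Prop) (P : Ix → N → Prop) (ι : M0 → N) : Prop where
  nest : Nest E
  hP : ∀ c x, P c x ↔ ∃ h : c.2 ∈ c.1.1, x = ι ⟨c, h⟩
  hE : ∀ j c d, E j (ι c) (ι d) ↔ E0 j c d
  cl : ∀ j c x, E j (ι c) x → ∃ d, x = ι d

theorem Nice.inj {N : Type} {E : ℕ → N → N → Prop} {P : Ix → N → Prop} {ι : M0 → N}
    (h : Nice E P ι) {c d : M0} (hcd : ι c = ι d) : c = d :=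
  nest_E0.zero ((h.hE 0 c d).1 (by rw [hcd]; exact h.nest.refl _ _))

structure Inv {N N' : Type} (E : ℕ → N → N → Prop) (ι : M0 → N) (E' : ℕ → N' → N' → Prop)
    (ι' : M0 → N') (m n : ℕ) (K : Finset Cp) {k : ℕ} (xs : Fin k → N) (ys : Fin k → N') :
    Prop where
  h0 : ∀ j ≤ m, ∀ a b, E j (xs a) (xs b) ↔ E' j (ys a) (ys b)
  h1 : ∀ a, ∀ c : M0, c.1.1 ∈ K → (xs a = ι c ↔ ys a = ι' c)
  h2 : ∀ j ≤ m, ∀ a, tp E n j (xs a) = tp E' n j (ys a)

theorem Inv.symm {N N' : Type} {E : ℕ → N → N → Prop} {ι : M0 → N} {E' : ℕ → N' → N' → Prop}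
    {ι' : M0 → N'} {m n : ℕ} {K : Finset Cp} {k : ℕ} {xs : Fin k → N} {ys : Fin k → N'}
    (h : Inv E ι E' ι' m n K xs ys) : Inv E' ι' E ι m n K ys xs :=
  ⟨fun j hj a b => (h.h0 j hj a b).symm, fun a c hc => (h.h1 a c hc).symm,
    fun j hj a => (h.h2 j hj a).symm⟩

theorem Inv.snoc {N N' : Type} {E : ℕ → N → N → Prop} {ι : M0 → N} {E' : ℕ → N' → N' → Prop}
    {ι' : M0 → N'} {m n : ℕ} {K : Finset Cp} {k : ℕ} {xs : Fin k → N} {ys : Fin k → N'}
    (hE : Nest E) (hE' : Nest E')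
    (h : Inv E ι E' ι' m n K xs ys) (x : N) (y : N')
    (g0 : ∀ i ≤ m, ∀ a, (E i (xs a) x ↔ E' i (ys a) y))
    (g1 : ∀ c : M0, c.1.1 ∈ K → (x = ι c ↔ y = ι' c))
    (g2 : ∀ i ≤ m, tp E' n i y = tp E n i x) :
    Inv E ι E' ι' m n K (Fin.snoc xs x : Fin (k + 1) → N) (Fin.snoc ys y : Fin (k + 1) → N') := by
  refine ⟨fun j hj a b => ?_, fun a c hc => ?_, fun j hj a => ?_⟩
  · refine Fin.lastCases ?_ (fun a => ?_) a
    · refine Fin.lastCases ?_ (fun b => ?_) b
      · simp [hE.refl, hE'.refl]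
      · simp only [Fin.snoc_last, Fin.snoc_castSucc]
        exact ⟨fun h => hE'.symm ((g0 j hj b).1 (hE.symm h)),
          fun h => hE.symm ((g0 j hj b).2 (hE'.symm h))⟩
    · refine Fin.lastCases ?_ (fun b => ?_) b
      · simpa only [Fin.snoc_last, Fin.snoc_castSucc] using g0 j hj a
      · simpa only [Fin.snoc_castSucc] using h.h0 j hj a b
  · refine Fin.lastCases ?_ (fun a => ?_) a
    · simpa only [Fin.snoc_last] using g1 c hc
    · simpa only [Fin.snoc_castSucc] using h.h1 a c hc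
  · refine Fin.lastCases ?_ (fun a => ?_) a
    · simpa only [Fin.snoc_last] using (g2 j hj).symm
    · simpa only [Fin.snoc_castSucc] using h.h2 j hj a

theorem extend {N N' : Type} {E : ℕ → N → N → Prop} {P : Ix → N → Prop} {ι : M0 → N}
    {E' : ℕ → N' → N' → Prop} {P' : Ix → N' → Prop}
    {ι' : M0 → N'} {m n : ℕ} {K : Finset Cp} {k : ℕ} {xs : Fin k → N} {ys : Fin k → N'}
    (hN : Nice E P ι) (hN' : Nice E' P' ι') (hk : k < n)
    (h : Inv E ι E' ι' m n K xs ys) (x : N) :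
    ∃ y, Inv E ι E' ι' m n K (Fin.snoc xs x : Fin (k + 1) → N)
      (Fin.snoc ys y : Fin (k + 1) → N') := by
  classical
  by_cases hx : ∃ c : M0, c.1.1 ∈ K ∧ x = ι c
  · obtain ⟨c, hc, rfl⟩ := hx
    refine ⟨ι' c, h.snoc hN.nest hN'.nest _ _ (fun i _ a => ?_) (fun d _ => ?_) (fun i _ => ?_)⟩
    · constructor
      · intro g
        obtain ⟨d, hd⟩ := hN.cl _ _ _ (hN.nest.symm g)
        rw [hd, hN.hE] at g
        rw [(h.h1 a d (g.1 ▸ hc)).1 hd, hN'.hE]; exact g
      · intro g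
        obtain ⟨d, hd⟩ := hN'.cl _ _ _ (hN'.nest.symm g)
        rw [hd, hN'.hE] at g
        rw [(h.h1 a d (g.1 ▸ hc)).2 hd, hN.hE]; exact g
    · exact ⟨fun g => by rw [hN.inj g], fun g => by rw [hN'.inj g]⟩
    · rw [tp_transfer n ι hN.hE hN.cl, tp_transfer n ι' hN'.hE hN'.cl]
  · have base : ∃ y0, tp E' n m y0 = tp E n m x ∧ (∀ a, E m (xs a) x ↔ E' m (ys a) y0) ∧
        ¬ ∃ c : M0, c.1.1 ∈ K ∧ y0 = ι' c := by
      by_cases ha : ∃ a, E m (xs a) x
      · obtain ⟨a, ha⟩ := ha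
        refine ⟨ys a, by rw [← h.h2 m le_rfl, tp_congr hN.nest n ha], fun b => ?_, ?_⟩
        · rw [← h.h0 m le_rfl]
          exact ⟨fun g => hN.nest.trans g (hN.nest.symm ha), fun g => hN.nest.trans g ha⟩
        · rintro ⟨c, hc, g⟩
          rw [← h.h1 a c hc] at g
          rw [g] at ha
          obtain ⟨d, hd⟩ := hN.cl _ _ _ ha
          rw [hd, hN.hE] at ha
          exact hx ⟨d, ha.1 ▸ hc, hd⟩
      · push Not at ha
        obtain ⟨S, ⟨l, hl⟩, hS2, hS3⟩ := realize hN.nest (show 0 < n by omega) m x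
        have hidx : ∀ a, ∃ t : ℕ, ∀ c : M0, ys a = ι' c → c.1.1.2 = t := by
          intro a
          by_cases g : ∃ c, ys a = ι' c
          · obtain ⟨c, hc⟩ := g
            exact ⟨c.1.1.2, fun d hd => by rw [hN'.inj (hd.symm.trans hc)]⟩
          · exact ⟨0, fun c hc => absurd ⟨c, hc⟩ g⟩
        choose t ht using hidx
        obtain ⟨u, hu⟩ := Infinite.exists_notMem_finset
          (K.image Prod.snd ∪ Finset.univ.image t)
        simp only [Finset.mem_union, Finset.mem_image, Finset.mem_univ, true_and, not_or,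
          not_exists, not_and] at hu
        refine ⟨ι' ⟨((S, u), [] ++ l), by simpa using hl⟩, ?_, fun a => ?_, ?_⟩
        · rw [tp_transfer n ι' hN'.hE hN'.cl]
          exact hS3 S u [] (by simpa using hS2) (by simp) l _
        · refine ⟨fun g => absurd g (ha a), fun g => ?_⟩
          obtain ⟨d, hd⟩ := hN'.cl _ _ _ (hN'.nest.symm g)
          rw [hd, hN'.hE] at g
          have := ht a d hd
          rw [g.1] at this
          exact absurd this.symm (hu.2 a)
        · rintro ⟨c, hc, g⟩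
          rw [← hN'.inj g] at hc
          exact hu.1 _ hc rfl
    obtain ⟨y0, b1, b2, b3⟩ := base
    obtain ⟨y, hy, hy'⟩ := descend hN.nest hN'.nest hk xs ys x h.h0 h.h2 y0 b1 b2
    refine ⟨y, h.snoc hN.nest hN'.nest _ _ (fun i hi => (hy' i hi).2) (fun c hc => ?_)
      (fun i hi => (hy' i hi).1)⟩
    refine ⟨fun g => absurd ⟨c, hc, g⟩ hx, fun g => ?_⟩
    rw [g] at hy
    obtain ⟨d, hd⟩ := hN'.cl _ _ _ (hN'.nest.symm hy)
    rw [hd, hN'.hE] at hy
    exact absurd ⟨d, hy.1 ▸ hc, hd⟩ b3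

end Pool.Agent.H.MP_ba14eb_lc
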