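import Pool.Agent.H.MP_ba14eb_lc.B

namespace Pool.Agent.H.MP_ba14eb_lc

open FirstOrder FirstOrder.Language FirstOrder.Language.Structure

inductive Rl : ℕ → Type
  | P (c : Ix) : Rl 1
  | E (j : ℕ) : Rl 2

def LL : FirstOrder.Language.{0, 0} := ⟨fun _ => Empty, Rl⟩

instance : LL.IsRelational := fun _ => inferInstanceAs (IsEmpty Empty)

def Rl.code : ∀ {n}, Rl n → Ix ⊕ ℕ
  | _, .P c => .inl c
  | _, .E j => .inr j

instance (n : ℕ) : Countable (Rl n) := by
  refine (show Function.Injective (Rl.code (n := n)) from ?_).countable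
  intro a b h
  cases a <;> cases b <;> simp_all [Rl.code]

instance : Countable LL.Symbols := by
  have h1 : ∀ n, Countable (LL.Functions n) := fun _ => inferInstanceAs (Countable Empty)
  have h2 : ∀ n, Countable (LL.Relations n) := fun n => inferInstanceAs (Countable (Rl n))
  exact inferInstanceAs (Countable ((Σ l, LL.Functions l) ⊕ (Σ l, LL.Relations l)))

def rP (c : Ix) : LL.Relations 1 := Rl.P c
def rE (j : ℕ) : LL.Relations 2 := Rl.E j

def EE (N : Type) [LL.Structure N] (j : ℕ) (x y : N) : Prop := RelMap (rE j) ![x, y]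
def PP (N : Type) [LL.Structure N] (c : Ix) (x : N) : Prop := RelMap (rP c) ![x]

theorem relE {N : Type} [LL.Structure N] (j : ℕ) (v : Fin 2 → N) :
    RelMap (rE j) v ↔ EE N j (v 0) (v 1) := by
  have : v = ![v 0, v 1] := by ext i; fin_cases i <;> rfl
  unfold EE; rw [← this]

theorem relP {N : Type} [LL.Structure N] (c : Ix) (v : Fin 1 → N) :
    RelMap (rP c) v ↔ PP N c (v 0) := by
  have : v = ![v 0] := by ext i; fin_cases i; rfl
  unfold PP; rw [← this]

theorem term_var {k : ℕ} (t : LL.Term (Empty ⊕ Fin k)) : ∃ a : Fin k, t = Term.var (Sum.inr a) := by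
  cases t with
  | var v =>
    cases v with
    | inl v => exact v.elim
    | inr a => exact ⟨a, rfl⟩
  | func f _ => exact f.elim

def RBd (m : ℕ) (K : Finset Cp) : ∀ {n}, Rl n → Prop
  | _, .P c => c.1 ∈ K
  | _, .E j => j ≤ m

def Bd (m n : ℕ) (K : Finset Cp) : ∀ {k}, LL.BoundedFormula Empty k → Prop
  | _, .falsum => True
  | _, .equal _ _ => True
  | _, .rel r _ => RBd m K r
  | _, .imp φ ψ => Bd m n K φ ∧ Bd m n K ψ
  | k, .all φ => k < n ∧ Bd m n K φ

theorem Bd.mono {m n m' n' : ℕ} {K K' : Finset Cp} (hm : m ≤ m') (hn : n ≤ n') (hK : K ⊆ K') :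
    ∀ {k} {φ : LL.BoundedFormula Empty k}, Bd m n K φ → Bd m' n' K' φ := by
  intro k φ
  induction φ with
  | falsum => exact id
  | equal => exact id
  | rel r _ =>
    cases r with
    | P c => exact fun h => hK h
    | E j => exact fun h => le_trans h hm
  | imp _ _ ih1 ih2 => exact fun h => ⟨ih1 h.1, ih2 h.2⟩
  | all _ ih => exact fun h => ⟨lt_of_lt_of_le h.1 hn, ih h.2⟩

theorem ex_bd {k} (φ : LL.BoundedFormula Empty k) : ∃ m n K, Bd m n K φ := by
  classical
  induction φ with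
  | falsum => exact ⟨0, 0, ∅, trivial⟩
  | equal => exact ⟨0, 0, ∅, trivial⟩
  | rel r _ =>
    cases r with
    | P c => exact ⟨0, 0, {c.1}, Finset.mem_singleton_self _⟩
    | E j => exact ⟨j, 0, ∅, le_refl j⟩
  | imp _ _ ih1 ih2 =>
    obtain ⟨m, n, K, h⟩ := ih1
    obtain ⟨m', n', K', h'⟩ := ih2
    exact ⟨max m m', max n n', K ∪ K',
      h.mono (le_max_left _ _) (le_max_left _ _) Finset.subset_union_left,
      h'.mono (le_max_right _ _) (le_max_right _ _) Finset.subset_union_right⟩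
  | @all k _ ih =>
    obtain ⟨m, n, K, h⟩ := ih
    exact ⟨m, max n (k + 1), K, by omega, h.mono le_rfl (le_max_left _ _) subset_rfl⟩

theorem ef {N N' : Type} [LL.Structure N] [LL.Structure N'] {ι : M0 → N} {ι' : M0 → N'}
    (hN : Nice (EE N) (PP N) ι) (hN' : Nice (EE N') (PP N') ι') {m n : ℕ} {K : Finset Cp} :
    ∀ {k} (φ : LL.BoundedFormula Empty k), Bd m n K φ → ∀ (xs : Fin k → N) (ys : Fin k → N'),
      Inv (EE N) ι (EE N') ι' m n K xs ys →
      (φ.Realize default xs ↔ φ.Realize default ys) := by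
  intro k φ
  induction φ with
  | falsum => intro _ _ _ _; rfl
  | equal t1 t2 =>
    intro _ xs ys h
    obtain ⟨a, rfl⟩ := term_var t1
    obtain ⟨b, rfl⟩ := term_var t2
    show xs a = xs b ↔ ys a = ys b
    have := h.h0 0 (Nat.zero_le _) a b
    exact ⟨fun g => hN'.nest.zero (this.1 (g ▸ hN.nest.refl _ _)),
      fun g => hN.nest.zero (this.2 (g ▸ hN'.nest.refl _ _))⟩
  | rel r ts =>
    intro hb xs ys h
    choose a ha using fun i => term_var (ts i)
    obtain rfl : ts = fun i => Term.var (Sum.inr (a i)) := funext ha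
    cases r with
    | P c =>
      show RelMap (rP c) (fun i => xs (a i)) ↔ RelMap (rP c) (fun i => ys (a i))
      rw [relP, relP, hN.hP, hN'.hP]
      exact exists_congr fun hc => h.h1 _ ⟨c, hc⟩ hb
    | E j =>
      show RelMap (rE j) (fun i => xs (a i)) ↔ RelMap (rE j) (fun i => ys (a i))
      rw [relE, relE]
      exact h.h0 j hb _ _
  | imp φ ψ ih1 ih2 =>
    intro hb xs ys h
    simp only [BoundedFormula.realize_imp]
    rw [ih1 hb.1 xs ys h, ih2 hb.2 xs ys h]
  | all φ ih =>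
    intro hb xs ys h
    simp only [BoundedFormula.realize_all]
    constructor
    · intro g y
      obtain ⟨x, hx⟩ := extend hN' hN hb.1 h.symm y
      exact (ih hb.2 _ _ hx.symm).1 (g x)
    · intro g x
      obtain ⟨y, hy⟩ := extend hN hN' hb.1 h x
      exact (ih hb.2 _ _ hy).2 (g y)

theorem ef_sent {N N' : Type} [LL.Structure N] [LL.Structure N'] {ι : M0 → N} {ι' : M0 → N'}
    (hN : Nice (EE N) (PP N) ι) (hN' : Nice (EE N') (PP N') ι') (φ : LL.Sentence) :
    N ⊨ φ ↔ N' ⊨ φ := by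
  obtain ⟨m, n, K, h⟩ := ex_bd φ
  exact ef hN hN' φ h default default
    ⟨fun _ _ a => a.elim0, fun a => a.elim0, fun _ _ a => a.elim0⟩

def U (C : Set (List ℕ)) : Type := M0 ⊕ C

def EU (C : Set (List ℕ)) (j : ℕ) : U C → U C → Prop
  | .inl c, .inl d => E0 j c d
  | .inr x, .inr y => e j x.1 y.1
  | .inl _, .inr _ => False
  | .inr _, .inl _ => False

def PU (C : Set (List ℕ)) (c : Ix) (x : U C) : Prop := ∃ h : c.2 ∈ c.1.1, x = Sum.inl ⟨c, h⟩

def relU (C : Set (List ℕ)) : ∀ {n}, Rl n → (Fin n → U C) → Prop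
  | _, .P c, v => PU C c (v 0)
  | _, .E j, v => EU C j (v 0) (v 1)

instance strU (C : Set (List ℕ)) : LL.Structure (U C) where
  funMap := fun f _ => Empty.elim f
  RelMap := fun r v => relU C r v

instance (C : Set (List ℕ)) : Nonempty (U C) := ⟨Sum.inl ⟨(({[]}, 0), []), by simp⟩⟩

theorem EE_U (C : Set (List ℕ)) : EE (U C) = EU C := rfl
theorem PP_U (C : Set (List ℕ)) : PP (U C) = PU C := rfl

theorem nice_U (C : Set (List ℕ)) : Nice (EE (U C)) (PP (U C)) (Sum.inl : M0 → U C) := by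
  rw [EE_U, PP_U]
  refine ⟨⟨?_, ?_, ?_, ?_, ?_⟩, fun _ _ => Iff.rfl, fun _ _ _ => Iff.rfl, ?_⟩
  · rintro j (x | x)
    · exact nest_E0.refl _ _
    · exact nest_e.refl _ _
  · rintro j (x | x) (y | y) h
    · exact nest_E0.symm h
    · exact h
    · exact h
    · exact nest_e.symm h
  · rintro j (x | x) (y | y) (z | z) h h'
    · exact nest_E0.trans h h'
    · exact h'
    · exact h.elim
    · exact h.elim
    · exact h.elim
    · exact h.elim
    · exact h'
    · exact nest_e.trans h h'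
  · rintro j (x | x) (y | y) h
    · exact nest_E0.mono1 h
    · exact h
    · exact h
    · exact nest_e.mono1 h
  · rintro (x | x) (y | y) h
    · rw [nest_E0.zero h]
    · exact h.elim
    · exact h.elim
    · rw [Subtype.ext (nest_e.zero h)]
  · rintro j c (y | y) h
    · exact ⟨y, rfl⟩
    · exact h.elim

def fE {k : ℕ} (j : ℕ) (a b : Fin k) : LL.BoundedFormula Empty k :=
  (rE j).boundedFormula ![Term.var (Sum.inr a), Term.var (Sum.inr b)]
def fP {k : ℕ} (c : Ix) (a : Fin k) : LL.BoundedFormula Empty k :=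
  (rP c).boundedFormula ![Term.var (Sum.inr a)]
def fQ {k : ℕ} (a b : Fin k) : LL.BoundedFormula Empty k :=
  (Term.var (Sum.inr a) : LL.Term (Empty ⊕ Fin k)).bdEqual (Term.var (Sum.inr b))
def fO {k : ℕ} (c : Cp) (a : Fin k) : List (List ℕ) → LL.BoundedFormula Empty k
  | [] => ⊥
  | l :: ls => fP (c, l) a ⊔ fO c a ls

theorem qE {k : ℕ} (j : ℕ) (a b : Fin k) : (fE j a b).IsQF :=
  (BoundedFormula.IsAtomic.rel _ _).isQF
theorem qP {k : ℕ} (c : Ix) (a : Fin k) : (fP c a).IsQF :=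
  (BoundedFormula.IsAtomic.rel _ _).isQF
theorem qQ {k : ℕ} (a b : Fin k) : (fQ a b).IsQF :=
  (BoundedFormula.IsAtomic.equal _ _).isQF
theorem qO {k : ℕ} (c : Cp) (a : Fin k) : ∀ ls, (fO c a ls).IsQF
  | [] => BoundedFormula.isQF_bot
  | l :: ls => (qP (c, l) a).sup (qO c a ls)

section
variable {N : Type} [LL.Structure N] {k : ℕ} (v : Empty → N) (xs : Fin k → N)
@[simp] theorem rzE (j : ℕ) (a b : Fin k) : (fE j a b).Realize v xs ↔ EE N j (xs a) (xs b) := by
  unfold fE; rw [BoundedFormula.realize_rel, relE]; rfl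
@[simp] theorem rzP (c : Ix) (a : Fin k) : (fP c a).Realize v xs ↔ PP N c (xs a) := by
  unfold fP; rw [BoundedFormula.realize_rel, relP]; rfl
@[simp] theorem rzQ (a b : Fin k) : (fQ a b).Realize v xs ↔ xs a = xs b := Iff.rfl
@[simp] theorem rzO (c : Cp) (a : Fin k) (ls : List (List ℕ)) :
    (fO c a ls).Realize v xs ↔ ∃ l ∈ ls, PP N (c, l) (xs a) := by
  induction ls with
  | nil => simp [fO]
  | cons l ls ih => simp [fO, ih]
end

theorem c1 {φ : LL.BoundedFormula Empty 1} (h : φ.IsQF) : Cls false 2 φ.all :=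
  Cls.up (Cls.all (Cls.up (Cls.qf h)))
theorem c2 {φ : LL.BoundedFormula Empty 2} (h : φ.IsQF) : Cls false 2 φ.all.all :=
  Cls.up (Cls.all (Cls.all (Cls.up (Cls.qf h))))
theorem c3 {φ : LL.BoundedFormula Empty 3} (h : φ.IsQF) : Cls false 2 φ.all.all.all :=
  Cls.up (Cls.all (Cls.all (Cls.all (Cls.up (Cls.qf h)))))
theorem c0 {φ : LL.BoundedFormula Empty 1} (h : φ.IsQF) : Cls false 2 φ.ex :=
  Cls.ex (Cls.up (Cls.up (Cls.qf h)))

theorem s1 (N : Type) [LL.Structure N] (φ : LL.BoundedFormula Empty 1) :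
    Sentence.Realize N φ.all ↔ ∀ x : N, φ.Realize default ![x] := by
  show BoundedFormula.Realize φ.all default default ↔ _
  rw [BoundedFormula.realize_all]
  refine forall_congr' fun x => iff_of_eq ?_
  congr 1; ext i; fin_cases i; rfl
theorem s0 (N : Type) [LL.Structure N] (φ : LL.BoundedFormula Empty 1) :
    Sentence.Realize N φ.ex ↔ ∃ x : N, φ.Realize default ![x] := by
  show BoundedFormula.Realize φ.ex default default ↔ _
  rw [BoundedFormula.realize_ex]
  refine exists_congr fun x => iff_of_eq ?_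
  congr 1; ext i; fin_cases i; rfl
theorem s2 (N : Type) [LL.Structure N] (φ : LL.BoundedFormula Empty 2) :
    Sentence.Realize N φ.all.all ↔ ∀ x y : N, φ.Realize default ![x, y] := by
  rw [s1]
  refine forall_congr' fun x => ?_
  rw [BoundedFormula.realize_all]
  refine forall_congr' fun y => iff_of_eq ?_
  congr 1; ext i; fin_cases i <;> rfl
theorem s3 (N : Type) [LL.Structure N] (φ : LL.BoundedFormula Empty 3) :
    Sentence.Realize N φ.all.all.all ↔ ∀ x y z : N, φ.Realize default ![x, y, z] := by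
  rw [s2]
  refine forall_congr' fun x => forall_congr' fun y => ?_
  rw [BoundedFormula.realize_all]
  refine forall_congr' fun z => iff_of_eq ?_
  congr 1; ext i; fin_cases i <;> rfl

theorem nice_of (N : Type) [LL.Structure N]
    (h : ∀ φ : LL.Sentence, Cls false 2 φ → U ∅ ⊨ φ → N ⊨ φ) :
    ∃ ι : M0 → N, Nice (EE N) (PP N) ι := by
  have n0 := nice_U ∅
  have a1 : ∀ j x, EE N j x x := by
    intro j
    have := h _ (c1 (qE j 0 0)) ((s1 _ _).2 (by simpa using n0.nest.refl j))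
    simpa using (s1 _ _).1 this
  have a2 : ∀ j x y, EE N j x y → EE N j y x := by
    intro j
    have := h _ (c2 ((qE j 0 1).imp (qE j 1 0)))
      ((s2 _ _).2 (by simpa using fun x y => n0.nest.symm (j := j) (x := x) (y := y)))
    simpa using (s2 _ _).1 this
  have a3 : ∀ j x y z, EE N j x y → EE N j y z → EE N j x z := by
    intro j
    have := h _ (c3 ((qE j 0 1).imp ((qE j 1 2).imp (qE j 0 2))))
      ((s3 _ _).2 (by simpa using fun x y z => n0.nest.trans (j := j) (x := x) (y := y) (z := z)))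
    simpa using (s3 _ _).1 this
  have a4 : ∀ j x y, EE N j x y → EE N (j + 1) x y := by
    intro j
    have := h _ (c2 ((qE j 0 1).imp (qE (j + 1) 0 1)))
      ((s2 _ _).2 (by simpa using fun x y => n0.nest.mono1 (j := j) (x := x) (y := y)))
    simpa using (s2 _ _).1 this
  have a5 : ∀ x y, EE N 0 x y → x = y := by
    have := h _ (c2 ((qE 0 0 1).imp (qQ 0 1)))
      ((s2 _ _).2 (by simpa using fun x y => n0.nest.zero (x := x) (y := y)))
    simpa using (s2 _ _).1 this
  have b1 : ∀ c : M0, ∃ x, PP N c.1 x := by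
    intro c
    have := h _ (c0 (qP c.1 0)) ((s0 _ _).2 ⟨Sum.inl c, by
      rw [rzP]; exact ⟨c.2, rfl⟩⟩)
    simpa using (s0 _ _).1 this
  have b2 : ∀ c x y, PP N c x → PP N c y → x = y := by
    intro c
    have := h _ (c2 ((qP c 0).imp ((qP c 1).imp (qQ 0 1)))) ((s2 _ _).2 (by
      intro x y
      simp only [BoundedFormula.realize_imp, rzP, rzQ]
      rintro ⟨_, h1⟩ ⟨_, h2⟩
      exact h1.trans h2.symm))
    simpa using (s2 _ _).1 this
  have b3 : ∀ c : Ix, c.2 ∉ c.1.1 → ∀ x, ¬ PP N c x := by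
    intro c hc
    have := h _ (c1 (qP c 0).not) ((s1 _ _).2 (by
      intro x
      simp only [BoundedFormula.realize_not, rzP]
      rintro ⟨h1, -⟩
      exact hc h1))
    simpa using (s1 _ _).1 this
  have b4 : ∀ j (c d : M0), E0 j c d → ∀ x y, PP N c.1 x → PP N d.1 y → EE N j x y := by
    intro j c d hcd
    have := h _ (c2 ((qP c.1 0).imp ((qP d.1 1).imp (qE j 0 1)))) ((s2 _ _).2 (by
      intro x y
      simp only [BoundedFormula.realize_imp, rzP, rzE]
      rintro ⟨_, h1⟩ ⟨_, h2⟩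
      obtain rfl : x = Sum.inl c := h1
      obtain rfl : y = Sum.inl d := h2
      exact hcd))
    simpa using (s2 _ _).1 this
  have b5 : ∀ j (c d : M0), ¬ E0 j c d → ∀ x y, PP N c.1 x → PP N d.1 y → ¬ EE N j x y := by
    intro j c d hcd
    have := h _ (c2 ((qP c.1 0).imp ((qP d.1 1).imp (qE j 0 1).not))) ((s2 _ _).2 (by
      intro x y
      simp only [BoundedFormula.realize_imp, BoundedFormula.realize_not, rzP, rzE]
      rintro ⟨_, h1⟩ ⟨_, h2⟩
      obtain rfl : x = Sum.inl c := h1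
      obtain rfl : y = Sum.inl d := h2
      exact hcd))
    simpa using (s2 _ _).1 this
  have b6 : ∀ j (c : M0) x y, PP N c.1 x → EE N j x y →
      ∃ l ∈ c.1.1.1.toList, PP N (c.1.1, l) y := by
    intro j c
    have := h _ (c2 ((qP c.1 0).imp ((qE j 0 1).imp (qO c.1.1 1 c.1.1.1.toList)))) ((s2 _ _).2 (by
      intro x y
      simp only [BoundedFormula.realize_imp, rzP, rzE, rzO]
      rintro ⟨_, h1⟩ h2
      obtain rfl : x = Sum.inl c := h1
      obtain ⟨d, hd⟩ := n0.cl j c y h2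
      subst hd
      have h3 : E0 j c d := h2
      refine ⟨d.1.2, by rw [Finset.mem_toList, h3.1]; exact d.2, by rw [h3.1]; exact ⟨d.2, rfl⟩⟩))
    simpa using (s2 _ _).1 this
  choose ι hι using b1
  refine ⟨ι, ⟨a1, a2 _ _ _, a3 _ _ _ _, a4 _ _ _, a5 _ _⟩, fun c x => ?_, fun j c d => ?_,
    fun j c x hx => ?_⟩
  · constructor
    · intro g
      have hc : c.2 ∈ c.1.1 := by
        by_contra hc
        exact b3 c hc x g
      exact ⟨hc, b2 c _ _ g (hι ⟨c, hc⟩)⟩
    · rintro ⟨hc, rfl⟩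
      exact hι ⟨c, hc⟩
  · constructor
    · intro g
      by_contra hcd
      exact b5 j c d hcd _ _ (hι c) (hι d) g
    · intro g
      exact b4 j c d g _ _ (hι c) (hι d)
  · obtain ⟨l, hl, g⟩ := b6 j c _ x (hι c) hx
    rw [Finset.mem_toList] at hl
    exact ⟨⟨(c.1.1, l), hl⟩, b2 _ _ _ g (hι ⟨(c.1.1, l), hl⟩)⟩

theorem axz_T : Axz false 2 (LL.completeTheory (U ∅)) := by
  refine ⟨{φ | Cls false 2 φ ∧ U ∅ ⊨ φ}, fun φ h => h.1, fun φ => ⟨fun h => ?_, fun h => ?_⟩⟩
  · have : U ∅ ⊨ ({φ | Cls false 2 φ ∧ U ∅ ⊨ φ} : LL.Theory) := ⟨fun φ h => h.2⟩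
    exact Theory.models_sentence_of_mem (mem_completeTheory.2 (h.realize_sentence (U ∅)))
  · rw [Theory.models_sentence_iff]
    intro N
    obtain ⟨ι, hι⟩ := nice_of N (fun ψ h1 h2 => N.is_model.realize_of_mem ψ ⟨h1, h2⟩)
    exact (ef_sent hι (nice_U ∅) φ).2 (h.realize_sentence (U ∅))

instance model_U (C : Set (List ℕ)) : U C ⊨ LL.completeTheory (U ∅) :=
  ⟨fun φ h => (ef_sent (nice_U C) (nice_U ∅) φ).2 (mem_completeTheory.1 h)⟩

end Pool.Agent.H.MP_ba14eb_lc
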