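import Pool.Agent.H.MP_ba14eb_lc.C

namespace Pool.Agent.H.MP_ba14eb_lc

open FirstOrder FirstOrder.Language FirstOrder.Language.Structure

def Good (L : FirstOrder.Language.{0, 0}) :
    ℕ → ∀ (M N : Type) [L.Structure M] [L.Structure N], (M → N) → Prop
  | 0, M, N, _, _, f => ∃ g : M ↪[L] N, ∀ x, g x = f x
  | k + 1, M, N, _, _, f => ∀ (r : ℕ) (xs : Fin r → M), ∃ g : N → M,
      Good L k N M g ∧ ∀ i, g (f (xs i)) = xs i

def Pres {L : FirstOrder.Language.{0, 0}} (b : Bool) (n : ℕ) {k : ℕ}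
    (φ : L.BoundedFormula Empty k) : Prop :=
  ∀ (M N : Type) [L.Structure M] [L.Structure N] (f : M → N), Good L n M N f →
    ∀ xs : Fin k → M, (b = true → φ.Realize default xs → φ.Realize default (f ∘ xs)) ∧
      (b = false → φ.Realize default (f ∘ xs) → φ.Realize default xs)

theorem Pres.succ {L : FirstOrder.Language.{0, 0}} {b : Bool} {n k : ℕ}
    {φ : L.BoundedFormula Empty k} (h : Pres (!b) n φ) : Pres b (n + 1) φ := by
  intro M N _ _ f hf xs
  obtain ⟨g, hg, hgf⟩ := hf k xs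
  have e1 : g ∘ (f ∘ xs) = xs := funext hgf
  have := h N M g hg (f ∘ xs)
  rw [e1] at this
  exact ⟨fun hb => this.2 (by simp [hb]), fun hb => this.1 (by simp [hb])⟩

theorem cls_pres {L : FirstOrder.Language.{0, 0}} {b : Bool} {n k : ℕ}
    {φ : L.BoundedFormula Empty k} (h : Cls b n φ) :
    Pres b n φ ∧ ∀ n', n = n' + 1 → Pres (!b) n' φ := by
  induction h with
  | qf hq =>
    refine ⟨?_, fun n' h => by omega⟩
    rintro M N _ _ f ⟨g, hg⟩ xs
    obtain rfl : f = g := funext fun x => (hg x).symm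
    have := hq.realize_embedding g (v := default) (xs := xs)
    rw [Subsingleton.elim (g ∘ default) default] at this
    exact ⟨fun _ => this.2, fun _ => this.1⟩
  | up _ ih =>
    refine ⟨ih.1.succ, fun n' h => ?_⟩
    obtain rfl : _ = n' := Nat.succ.inj h
    exact ih.1
  | @all n k φ _ ih =>
    have key : Pres false n φ.all := by
      intro M N _ _ f hf xs
      refine ⟨fun h => by simp at h, fun _ h => ?_⟩
      rw [BoundedFormula.realize_all] at h ⊢
      intro a
      refine (ih.2 n rfl M N f hf (Fin.snoc xs a)).2 rfl ?_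
      rw [Fin.comp_snoc]; exact h _
    refine ⟨Pres.succ key, fun n' h => ?_⟩
    obtain rfl : _ = n' := Nat.succ.inj h
    exact key
  | @ex n k φ _ ih =>
    have key : Pres true n φ.ex := by
      intro M N _ _ f hf xs
      refine ⟨fun _ h => ?_, fun h => by simp at h⟩
      rw [BoundedFormula.realize_ex] at h ⊢
      obtain ⟨a, ha⟩ := h
      refine ⟨f a, ?_⟩
      rw [← Fin.comp_snoc]
      exact (ih.2 n rfl M N f hf (Fin.snoc xs a)).1 rfl ha
    refine ⟨Pres.succ key, fun n' h => ?_⟩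
    obtain rfl : _ = n' := Nat.succ.inj h
    exact key

def G : ℕ → Set (List ℕ) → Set (List ℕ) → (List ℕ → List ℕ) → Prop
  | 0, S, T, f => Set.MapsTo f S T ∧ ∀ j, ∀ x ∈ S, ∀ y ∈ S, (e j (f x) (f y) ↔ e j x y)
  | k + 1, S, T, f => Set.MapsTo f S T ∧ ∀ s : Set (List ℕ), s.Finite → s ⊆ S →
      ∃ g, G k T S g ∧ ∀ x ∈ s, g (f x) = x

theorem G.maps {k S T f} (h : G k S T f) : Set.MapsTo f S T := by
  cases k <;> exact h.1

theorem G_id : ∀ k S, G k S S id
  | 0, _ => ⟨fun _ h => h, fun _ _ _ _ _ => Iff.rfl⟩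
  | k + 1, S => ⟨fun _ h => h, fun _ _ _ => ⟨id, G_id k S, fun _ _ => rfl⟩⟩

theorem e_cons {j m i i' : ℕ} {l l' : List ℕ} (h : l.length = m) (h' : l'.length = m) :
    e j (i :: l) (i' :: l') ↔ m < j ∨ (i = i' ∧ e j l l') := by
  unfold e
  simp only [List.length_cons, h, h']
  by_cases hj : m < j
  · simp [hj, show m + 1 - j = 0 by omega]
  · rw [show m + 1 - j = (m - j) + 1 by omega]
    simp [hj]

theorem e_ne {j : ℕ} {l l' : List ℕ} (h : l.length ≠ l'.length) :
    e j l l' ↔ l.length ≤ j ∧ l'.length ≤ j := by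
  unfold e
  constructor
  · intro g
    have := congrArg List.length g
    simp only [List.length_take] at this
    omega
  · rintro ⟨h1, h2⟩
    rw [show l.length - j = 0 by omega, show l'.length - j = 0 by omega]; simp

def sm (A : ℕ → Set (List ℕ)) : Set (List ℕ) := {l | ∃ i l', l' ∈ A i ∧ l = i :: l'}

@[simp] theorem cons_mem_sm {A : ℕ → Set (List ℕ)} {i : ℕ} {l : List ℕ} :
    i :: l ∈ sm A ↔ l ∈ A i := by
  constructor
  · rintro ⟨i', l', h, h'⟩
    obtain ⟨rfl, rfl⟩ := List.cons.inj h'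
    exact h
  · intro h; exact ⟨i, l, h, rfl⟩

def smap (σ : ℕ → ℕ) (g : ℕ → List ℕ → List ℕ) : List ℕ → List ℕ
  | [] => []
  | i :: l => σ i :: g i l

theorem G_sm {m : ℕ} : ∀ (k : ℕ) (A B : ℕ → Set (List ℕ)) (σ : ℕ ≃ ℕ)
    (g : ℕ → List ℕ → List ℕ), (∀ i, ∀ l ∈ A i, l.length = m) → (∀ i, ∀ l ∈ B i, l.length = m) →
    (∀ i, G k (A i) (B (σ i)) (g i)) → G k (sm A) (sm B) (smap σ g) := by
  have hm : ∀ (k : ℕ) (A B : ℕ → Set (List ℕ)) (σ : ℕ ≃ ℕ) (g : ℕ → List ℕ → List ℕ),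
      (∀ i, G k (A i) (B (σ i)) (g i)) → Set.MapsTo (smap σ g) (sm A) (sm B) := by
    rintro k A B σ g h _ ⟨i, l, hl, rfl⟩
    exact cons_mem_sm.2 ((h i).maps hl)
  intro k
  induction k with
  | zero =>
    intro A B σ g hA hB h
    refine ⟨hm 0 A B σ g h, ?_⟩
    rintro j _ ⟨i, l, hl, rfl⟩ _ ⟨i', l', hl', rfl⟩
    show e j (σ i :: g i l) (σ i' :: g i' l') ↔ _
    rw [e_cons (hB _ _ ((h i).maps hl)) (hB _ _ ((h i').maps hl')), e_cons (hA _ _ hl) (hA _ _ hl'),
      σ.apply_eq_iff_eq]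
    refine or_congr_right (and_congr_right ?_)
    rintro rfl
    exact (h i).2 j l hl l' hl'
  | succ k ih =>
    intro A B σ g hA hB h
    refine ⟨hm _ A B σ g h, fun s hs hsub => ?_⟩
    have : ∀ i, ∃ g', G k (B (σ i)) (A i) g' ∧ ∀ x, i :: x ∈ s → g' (g i x) = x := by
      intro i
      exact (h i).2 {x | i :: x ∈ s} (hs.preimage (List.cons_injective.injOn))
        (fun x hx => cons_mem_sm.1 (hsub hx))
    choose g' hg1 hg2 using this
    refine ⟨smap σ.symm (fun i => g' (σ.symm i)), ih B A σ.symm _ hB hA (fun i => ?_), ?_⟩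
    · have := hg1 (σ.symm i)
      rwa [σ.apply_symm_apply] at this
    · intro x hx
      obtain ⟨i, l, -, rfl⟩ := hsub hx
      show σ.symm (σ i) :: g' (σ.symm (σ i)) (g i l) = _
      rw [σ.symm_apply_apply, hg2 i l hx]

def sh : ℕ → Bool → Set (List ℕ)
  | 0, b => {l | l.length = 1 ∧ (b = true → l = [0])}
  | m + 1, b => sm (fun i => sh m (!b && decide (i % 2 = 1)))

theorem sh_len : ∀ m b, ∀ l ∈ sh m b, l.length = m + 1
  | 0, _, _, h => h.1
  | m + 1, _, _, ⟨_, l', h, h'⟩ => by rw [h', List.length_cons, sh_len m _ l' h]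

theorem sh_ne : ∀ m b, ∃ l, l ∈ sh m b
  | 0, _ => ⟨[0], rfl, fun _ => rfl⟩
  | m + 1, b => by
    obtain ⟨l, hl⟩ := sh_ne m (!b && decide (0 % 2 = 1))
    exact ⟨0 :: l, cons_mem_sm.2 hl⟩

theorem goodAB : ∀ m, ∃ f, G m (sh m true) (sh m false) f
  | 0 => ⟨id, fun _ h => ⟨h.1, by simp⟩, fun _ _ _ _ _ => Iff.rfl⟩
  | m + 1 => by
    obtain ⟨f, hf⟩ := goodAB m
    refine ⟨smap (fun i => 2 * i) (fun _ => id), ?_, fun s hs hsub => ?_⟩
    · rintro _ ⟨i, l, hl, rfl⟩
      refine cons_mem_sm.2 ?_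
      simpa using hl
    obtain ⟨r, hr⟩ := (hs.image (fun l => l.headD 0)).bddAbove
    obtain ⟨σ, hσ⟩ := Equiv.Perm.exists_extending_pair
      (f := fun a : Fin (r + 1) => 2 * a.val) (g := fun a : Fin (r + 1) => a.val)
      (fun a b h => Fin.ext (by simpa using h)) Fin.val_injective
    refine ⟨smap σ (fun i => if i % 2 = 1 then f else id), ?_, ?_⟩
    · refine G_sm (m := m + 1) m _ _ σ _ (fun i => sh_len _ _) (fun i => sh_len _ _) fun i => ?_
      by_cases hi : i % 2 = 1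
      · simpa [hi] using hf
      · simpa [hi] using G_id m _
    · intro x hx
      obtain ⟨i, l, -, rfl⟩ := hsub hx
      have hi : i ≤ r := hr ⟨_, hx, rfl⟩
      have := hσ ⟨i, by omega⟩
      simp only at this
      simp [smap, this]

def gl (L : ℕ) (f : List ℕ → List ℕ) (l : List ℕ) : List ℕ :=
  if l.length = L + 1 then 0 :: f l.tail else l

theorem G_gl {L : ℕ} {R : Set (List ℕ)} (hR : ∀ l ∈ R, l.length ≠ L + 1) :
    ∀ (k : ℕ) (A B : Set (List ℕ)) (f : List ℕ → List ℕ), (∀ l ∈ A, l.length = L) →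
    (∀ l ∈ B, l.length = L) → G k A B f →
    G k (R ∪ (List.cons 0) '' A) (R ∪ (List.cons 0) '' B) (gl L f) := by
  have h1 : ∀ f, ∀ l ∈ R, gl L f l = l := fun f l hl => if_neg (hR l hl)
  have h2 : ∀ f (l : List ℕ), l.length = L → gl L f (0 :: l) = 0 :: f l :=
    fun f l hl => if_pos (by simp [hl])
  have hm : ∀ (k : ℕ) (A B : Set (List ℕ)) (f : List ℕ → List ℕ), (∀ l ∈ A, l.length = L) →
      G k A B f → Set.MapsTo (gl L f) (R ∪ (List.cons 0) '' A) (R ∪ (List.cons 0) '' B) := by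
    rintro k A B f hA h l (hl | ⟨l, hl, rfl⟩)
    · rw [h1 f l hl]; exact Or.inl hl
    · rw [h2 f l (hA l hl)]; exact Or.inr ⟨_, h.maps hl, rfl⟩
  intro k
  induction k with
  | zero =>
    intro A B f hA hB h
    refine ⟨hm 0 A B f hA h, ?_⟩
    rintro j x (hx | ⟨x, hx, rfl⟩) y (hy | ⟨y, hy, rfl⟩)
    · rw [h1 f x hx, h1 f y hy]
    · rw [h1 f x hx, h2 f y (hA y hy), e_ne (by simpa [hB _ (h.maps hy)] using hR x hx),
        e_ne (by simpa [hA _ hy] using hR x hx)]
      simp [hA _ hy, hB _ (h.maps hy)]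
    · rw [h1 f y hy, h2 f x (hA x hx), e_ne (by simpa [hB _ (h.maps hx)] using (hR y hy).symm),
        e_ne (by simpa [hA _ hx] using (hR y hy).symm)]
      simp [hA _ hx, hB _ (h.maps hx)]
    · rw [h2 f x (hA x hx), h2 f y (hA y hy), e_cons (hB _ (h.maps hx)) (hB _ (h.maps hy)),
        e_cons (hA _ hx) (hA _ hy), h.2 j x hx y hy]
  | succ k ih =>
    intro A B f hA hB h
    refine ⟨hm _ A B f hA h, fun s hs hsub => ?_⟩
    obtain ⟨g, hg1, hg2⟩ := h.2 ({x | 0 :: x ∈ s} ∩ A)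
      ((hs.preimage (List.cons_injective.injOn)).inter_of_left _) Set.inter_subset_right
    refine ⟨gl L g, ih B A g hB hA hg1, fun x hx => ?_⟩
    rcases hsub hx with hx' | ⟨x, hx', rfl⟩
    · rw [h1 f x hx', h1 g x hx']
    · rw [h2 f x (hA x hx'), h2 g _ (hB _ (h.maps hx')), hg2 x ⟨hx, hx'⟩]

instance cstr (C : Set (List ℕ)) [h : Fact ([] ∈ C)] : (constantsOn (Fin 1)).Structure (U C) :=
  constantsOn.structure (fun _ => Sum.inr ⟨[], h.out⟩)

def lift {S T : Set (List ℕ)} (f : List ℕ → List ℕ) (h : Set.MapsTo f S T) : U S → U T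
  | .inl c => .inl c
  | .inr x => .inr ⟨f x.1, h x.2⟩

theorem good_lift : ∀ (k : ℕ) (S T : Set (List ℕ)) [Fact ([] ∈ S)] [Fact ([] ∈ T)]
    (f : List ℕ → List ℕ) (h : G k S T f), f [] = [] →
    Good LL[[Fin 1]] k (U S) (U T) (lift f h.maps) := by
  intro k
  induction k with
  | zero =>
    intro S T _ _ f h h0
    have hE : ∀ j x y, EU T j (lift f h.maps x) (lift f h.maps y) ↔ EU S j x y := by
      rintro j (x | x) (y | y)
      · exact Iff.rfl
      · exact Iff.rfl
      · exact Iff.rfl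
      · exact h.2 j _ x.2 _ y.2
    have hP : ∀ c x, PU T c (lift f h.maps x) ↔ PU S c x := by
      rintro c (x | x)
      · exact exists_congr fun _ => ⟨fun g => by rw [Sum.inl.inj g], fun g => by
          rw [Sum.inl.inj g]; rfl⟩
      · exact exists_congr fun _ => ⟨fun g => (by cases g), fun g => (by cases g)⟩
    refine ⟨⟨⟨lift f h.maps, fun x y hxy => ?_⟩, ?_, ?_⟩, fun _ => rfl⟩
    · apply (nice_U S).nest.zero
      rw [EE_U, ← hE, hxy]
      exact (nice_U T).nest.refl 0 (lift f h.maps y)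
    · rintro n (c | c) x
      · exact Empty.elim c
      · cases n with
        | zero =>
          show Sum.inr (⟨f [], _⟩ : T) = Sum.inr ⟨[], _⟩
          simp [h0]
        | succ n => exact PEmpty.elim c
    · rintro n (r | r) x
      · cases r with
        | P c => exact hP c _
        | E j => exact hE j _ _
      · exact Empty.elim r
  | succ k ih =>
    intro S T hS _ f h h0 r xs
    obtain ⟨g, hg1, hg2⟩ := h.2 (insert [] {l | ∃ i, ∃ hl : l ∈ S, xs i = Sum.inr ⟨l, hl⟩})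
      (by
        refine Set.Finite.insert _ ?_
        refine (Set.finite_range (fun i => Sum.elim (fun _ => []) Subtype.val (xs i))).subset ?_
        rintro l ⟨i, hl, h⟩
        exact ⟨i, by simp only [h]; rfl⟩)
      (by
        rintro l (rfl | ⟨_, hl, _⟩)
        · exact hS.out
        · exact hl)
    have hg0 : g [] = [] := by
      have := hg2 [] (Set.mem_insert _ _)
      rwa [h0] at this
    refine ⟨lift g hg1.maps, ih T S g hg1 hg0, fun i => ?_⟩
    rcases hx : xs i with c | x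
    · rfl
    · show Sum.inr (⟨g (f x.1), _⟩ : S) = Sum.inr x
      congr 1
      exact Subtype.ext (hg2 x.1 (Or.inr ⟨i, x.2, hx⟩))

def sA {X : Type} (E : ℕ → X → X → Prop) : ℕ → X → Prop
  | 0, x => ∀ y, E 1 x y → y = x
  | m + 1, x => ∀ y, E (m + 2) x y → ¬ sA E m y

theorem sA_sh (C : Set (List ℕ)) : ∀ (m : ℕ) (b : Bool) (p : List ℕ), p ≠ [] →
    (∀ l, l.length = m + 1 → (p ++ l ∈ C ↔ l ∈ sh m b)) →
    ∀ l (hl : p ++ l ∈ C), l.length = m + 1 →
      (sA (EU C) m (Sum.inr ⟨p ++ l, hl⟩) ↔ b = true) := by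
  intro m
  induction m with
  | zero =>
    intro b p hp hC l hl hlen
    constructor
    · intro h
      by_contra hb
      obtain ⟨a, rfl⟩ := List.length_eq_one_iff.1 hlen
      have hm : p ++ [a + 1] ∈ C := (hC _ rfl).2 ⟨rfl, fun h => absurd h hb⟩
      have := h (Sum.inr ⟨_, hm⟩) ((e_app hlen (by simp)).2 ⟨_, rfl, rfl⟩)
      have := Subtype.ext_iff.1 (Sum.inr.inj this)
      simp at this
    · rintro rfl (y | ⟨y, hy⟩) h
      · exact h.elim
      · obtain ⟨l', h1, rfl⟩ := (e_app hlen (e_len hlen hp h)).1 h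
        have e1 := ((hC _ h1).1 hy).2 rfl
        have e2 := ((hC _ hlen).1 hl).2 rfl
        subst e1 e2; rfl
  | succ m ih =>
    intro b p hp hC l hl hlen
    have key : ∀ i l' (h : p ++ [i] ++ l' ∈ C), l'.length = m + 1 →
        (sA (EU C) m (Sum.inr ⟨p ++ [i] ++ l', h⟩) ↔ (!b && decide (i % 2 = 1)) = true) := by
      intro i l' h h'
      refine ih _ (p ++ [i]) (by simp) (fun l2 h2 => ?_) l' h h'
      rw [List.append_assoc, hC _ (by simp [h2])]
      exact cons_mem_sm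
    constructor
    · intro h
      by_contra hb
      obtain ⟨l', hl'⟩ := sh_ne m (!b && decide (1 % 2 = 1))
      have h1 := sh_len _ _ _ hl'
      have hm : p ++ [1] ++ l' ∈ C := by
        rw [List.append_assoc, hC _ (by simp [h1])]
        exact cons_mem_sm.2 hl'
      refine h (Sum.inr ⟨_, hm⟩)
        ((e_app hlen (by simp [h1])).2 ⟨1 :: l', by simp [h1], by simp⟩) ?_
      rw [key 1 l' hm h1]
      simpa using hb
    · rintro rfl (y | ⟨y, hy⟩) h
      · exact h.elim
      · obtain ⟨l', h1, rfl⟩ := (e_app hlen (e_len hlen hp h)).1 h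
        cases l' with
        | nil => simp at h1
        | cons i l' =>
          have := key i l' (by simpa using hy) (by simpa using h1)
          simp only [List.append_assoc, List.singleton_append] at this
          rw [this]; simp

def gE {k : ℕ} (j : ℕ) (s t : LL[[Fin 1]].Term (Empty ⊕ Fin k)) :
    LL[[Fin 1]].BoundedFormula Empty k :=
  Relations.boundedFormula (L := LL[[Fin 1]]) (Sum.inl (rE j)) ![s, t]

def phi : ℕ → ∀ {k : ℕ}, Fin k → LL[[Fin 1]].BoundedFormula Empty k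
  | 0, k, v => ((gE 1 (Term.var (Sum.inr v.castSucc)) (Term.var (Sum.inr (Fin.last k)))).imp
      ((Term.var (Sum.inr (Fin.last k)) : LL[[Fin 1]].Term _).bdEqual
        (Term.var (Sum.inr v.castSucc)))).all
  | m + 1, k, v =>
    ((gE (m + 2) (Term.var (Sum.inr v.castSucc)) (Term.var (Sum.inr (Fin.last k)))).imp
      (phi m (Fin.last k)).not).all

theorem rz_gE (C : Set (List ℕ)) [Fact ([] ∈ C)] {k : ℕ} (j : ℕ)
    (s t : LL[[Fin 1]].Term (Empty ⊕ Fin k)) (v : Empty → U C) (xs : Fin k → U C) :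
    (gE j s t).Realize v xs ↔
      EU C j (s.realize (Sum.elim v xs)) (t.realize (Sum.elim v xs)) := Iff.rfl

theorem rz_phi (C : Set (List ℕ)) [Fact ([] ∈ C)] (v : Empty → U C) :
    ∀ (m : ℕ) {k : ℕ} (a : Fin k) (xs : Fin k → U C),
      (phi m a).Realize v xs ↔ sA (EU C) m (xs a) := by
  intro m
  induction m with
  | zero =>
    intro k a xs
    simp [phi, sA, rz_gE]
  | succ m ih =>
    intro k a xs
    simp [phi, sA, rz_gE, ih]

def ca : LL[[Fin 1]].Term (Empty ⊕ Fin 1) := Constants.term (LL.con (0 : Fin 1))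

def del (n : ℕ) : LL[[Fin 1]].Sentence :=
  ((gE (n + 2) ca (Term.var (Sum.inr 0))).imp
    ((gE (n + 1) ca (Term.var (Sum.inr 0))).not.imp (phi n 0))).all

theorem rz_del (C : Set (List ℕ)) [h : Fact ([] ∈ C)] (n : ℕ) :
    U C ⊨ del n ↔ ∀ y : U C, EU C (n + 2) (Sum.inr ⟨[], h.out⟩) y →
      ¬ EU C (n + 1) (Sum.inr ⟨[], h.out⟩) y → sA (EU C) n y := by
  show BoundedFormula.Realize (del n) default default ↔ _
  unfold del
  rw [BoundedFormula.realize_all]
  refine forall_congr' fun y => ?_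
  rw [BoundedFormula.realize_imp, BoundedFormula.realize_imp, BoundedFormula.realize_not, rz_phi]
  rfl

def RR (n : ℕ) : Set (List ℕ) := insert [] {l | ∃ m, m ≠ n ∧ ∃ l' ∈ sh m true, l = 0 :: l'}
def CC (n : ℕ) (b : Bool) : Set (List ℕ) := RR n ∪ (List.cons 0) '' sh n b
def CA : Set (List ℕ) := insert [] {l | ∃ m, ∃ l' ∈ sh m true, l = 0 :: l'}

instance (n b) : Fact ([] ∈ CC n b) := ⟨Or.inl (Or.inl rfl)⟩
instance : Fact ([] ∈ CA) := ⟨Or.inl rfl⟩

theorem RR_len (n : ℕ) : ∀ l ∈ RR n, l.length ≠ n + 1 + 1 := by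
  rintro l (rfl | ⟨m, hm, l', hl', rfl⟩)
  · simp
  · simp [sh_len _ _ _ hl', hm]

theorem CC_true (n : ℕ) : CC n true = CA := by
  ext l
  constructor
  · rintro ((rfl | ⟨m, -, l', hl', rfl⟩) | ⟨l', hl', rfl⟩)
    · exact Or.inl rfl
    · exact Or.inr ⟨m, l', hl', rfl⟩
    · exact Or.inr ⟨n, l', hl', rfl⟩
  · rintro (rfl | ⟨m, l', hl', rfl⟩)
    · exact Or.inl (Or.inl rfl)
    · by_cases hm : m = n
      · subst hm; exact Or.inr ⟨l', hl', rfl⟩
      · exact Or.inl (Or.inr ⟨m, hm, l', hl', rfl⟩)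

theorem del_iff (C : Set (List ℕ)) [h : Fact ([] ∈ C)] (n : ℕ) (b : Bool) (hC : C = CC n b) :
    U C ⊨ del n ↔ b = true := by
  subst hC
  have hm : ∀ l, l.length = n + 1 → ([0] ++ l ∈ CC n b ↔ l ∈ sh n b) := by
    intro l hl
    constructor
    · rintro (h | ⟨l', hl', h⟩)
      · exact absurd (by simp [hl]) (RR_len n _ h)
      · obtain ⟨-, rfl⟩ := List.cons.inj h
        exact hl'
    · intro h; exact Or.inr ⟨l, h, rfl⟩
  rw [rz_del]
  constructor
  · intro g
    obtain ⟨l, hl⟩ := sh_ne n b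
    have h1 := sh_len _ _ _ hl
    refine (sA_sh _ n b [0] (by simp) hm l ((hm l h1).2 hl) h1).1 (g _ ?_ ?_)
    · exact (e_ne (by simp)).2 (by simp [h1])
    · intro g'
      have := (e_ne (by simp)).1 g'
      simp [h1] at this
  · rintro hb (y | ⟨y, hy⟩) g1 g2
    · exact g1.elim
    · have hlen : y.length = n + 2 := by
        by_cases h0 : ([] : List ℕ).length = y.length
        · exact absurd (show e (n + 1) [] y by simp [e, ← h0]) g2
        · have a1 := (e_ne h0).1 g1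
          have a2 := mt (e_ne h0).2 g2
          simp at a1 a2
          omega
      rcases hy with hy' | ⟨l, hl, rfl⟩
      · exact absurd hlen (RR_len n _ hy')
      · exact (sA_sh _ n b [0] (by simp) hm l _ (sh_len _ _ _ hl)).2 hb

theorem unbounded (n : ℕ) : ¬ Axz true n (LL[[Fin 1]].completeTheory (U CA)) := by
  rintro ⟨A, hA, hiff⟩
  obtain ⟨f, hf⟩ := goodAB n
  have hG := G_gl (RR_len n) n _ _ f (sh_len n true) (sh_len n false) hf
  change G n (CC n true) (CC n false) _ at hG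
  rw [CC_true] at hG
  have hgood := good_lift n CA (CC n false) _ hG (by simp [gl])
  have : U (CC n false) ⊨ A := by
    refine ⟨fun φ hφ => ?_⟩
    have h1 : U CA ⊨ φ := ((hiff φ).1 (Theory.models_sentence_of_mem hφ)).realize_sentence _
    have h2 := ((cls_pres (hA φ hφ)).1 _ _ _ hgood default).1 rfl h1
    rw [Subsingleton.elim (_ ∘ default) default] at h2
    exact h2
  have h3 : U CA ⊨ del n := (del_iff CA n true (CC_true n).symm).2 rfl
  have h4 := ((hiff (del n)).2
    (Theory.models_sentence_of_mem (mem_completeTheory.2 h3))).realize_sentence (U (CC n false))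
  simpa using (del_iff _ n false rfl).1 h4

end Pool.Agent.H.MP_ba14eb_lc
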