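import Mathlib

namespace Pool.Agent.H.MP_ba14eb_lc

open FirstOrder FirstOrder.Language

/-- `Cls true n φ`: `φ` is a `∀_n`-formula; `Cls false n φ`: `φ` is an `∃_n`-formula. -/
inductive Cls {L : FirstOrder.Language.{0, 0}} : Bool → ℕ → ∀ {k : ℕ}, L.BoundedFormula Empty k → Prop
  | qf {b : Bool} {k : ℕ} {φ : L.BoundedFormula Empty k} : φ.IsQF → Cls b 0 φ
  | up {b : Bool} {n k : ℕ} {φ : L.BoundedFormula Empty k} : Cls (!b) n φ → Cls b (n + 1) φ
  | all {n k : ℕ} {φ : L.BoundedFormula Empty (k + 1)} :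
      Cls true (n + 1) φ → Cls true (n + 1) φ.all
  | ex {n k : ℕ} {φ : L.BoundedFormula Empty (k + 1)} :
      Cls false (n + 1) φ → Cls false (n + 1) φ.ex

/-- `T` has the same consequences as a set of sentences of the class `Cls b n`. -/
def Axz {L : FirstOrder.Language.{0, 0}} (b : Bool) (n : ℕ) (T : L.Theory) : Prop :=
  ∃ A : L.Theory, (∀ φ ∈ A, Cls b n φ) ∧ ∀ φ : L.Sentence, A ⊨ᵇ φ ↔ T ⊨ᵇ φ

end Pool.Agent.H.MP_ba14eb_lc
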